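import Pool.Agent.H923R2.FZ.Stubs1

/-!
MP_118406_an, task OZ: order zero maps.
-/

set_option autoImplicit false

noncomputable section

namespace Pool.Agent.H923R2.FZ.T_OZ

open Pool.Agent.H923R2.FZ

/-- `0` below `s`, `1` above `s + d` -/
def cl (s d t : ℝ) : ℝ := max 0 (min 1 ((t - s) / d))

theorem cl_cont (s d : ℝ) : Continuous (cl s d) := by
  unfold cl; fun_prop

theorem cl_nonneg (s d t : ℝ) : 0 ≤ cl s d t := le_max_left _ _

theorem cl_le_one (s d t : ℝ) : cl s d t ≤ 1 := max_le zero_le_one (min_le_left _ _)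

theorem cl_zero {s d t : ℝ} (hd : 0 < d) (ht : t ≤ s) : cl s d t = 0 := by
  unfold cl
  apply max_eq_left
  exact (min_le_right _ _).trans (div_nonpos_of_nonpos_of_nonneg (by linarith) hd.le)

theorem cl_one {s d t : ℝ} (hd : 0 < d) (ht : s + d ≤ t) : cl s d t = 1 := by
  unfold cl
  have h : 1 ≤ (t - s) / d := by rw [le_div_iff₀ hd]; linarith
  rw [min_eq_left h]
  exact max_eq_right zero_le_one

section alg

variable {B : Type} [CStarAlgebra B]

theorem pc_norm {a : B} (ha : PC a) : ‖a‖ ≤ 1 := by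
  have h := norm_cfc_le (𝕜 := ℝ) (f := fun t : ℝ => t) (a := a) zero_le_one (fun x hx => by
    have h1 := ha.2 hx
    rw [Real.norm_eq_abs, abs_of_nonneg h1.1]
    exact h1.2)
  rwa [cfc_id' ℝ a ha.1] at h

/-- multiplication by `1 - x* x` controls `1 - G (x* x)` -/
theorem ped_step (x k : B) (u : B) (hu : ‖u‖ ≤ 1) (hx : ‖x‖ ≤ 2)
    (hG : ∀ G : ℝ → ℝ, Continuous G → (∀ t, t ≤ 1 / 4 → G t = 0) →
      u * cfc G (star x * x) = x * cfc (fun t => G t / Real.sqrt t) (star x * x)) :
    ‖u * k - x * k‖ ≤ 7 * ‖(1 - star x * x) * k‖ := by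
  set y := star x * x with hy
  have hysa : IsSelfAdjoint y := IsSelfAdjoint.star_mul_self x
  have hsp : ∀ t ∈ spectrum ℝ y, 0 ≤ t := spectrum_star_mul_self_nonneg
  set Gc : ℝ → ℝ := cl (1 / 4) (1 / 4) with hGc
  have hGcc : Continuous Gc := cl_cont _ _
  have hG1 : ∀ t : ℝ, 1 / 2 ≤ t → Gc t = 1 := fun t ht => cl_one (by norm_num) (by linarith)
  have hG0 : ∀ t : ℝ, t ≤ 1 / 4 → Gc t = 0 := fun t ht => cl_zero (by norm_num) ht
  have hm : ∀ t : ℝ, 1 / 2 ≤ max (1 - t) (1 / 2) := fun t => le_max_right _ _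
  set q : ℝ → ℝ := fun t => (1 - Gc t) / max (1 - t) (1 / 2) with hq
  have hqc : Continuous q := by
    rw [hq]
    exact (continuous_const.sub hGcc).div (by fun_prop) (fun t => by linarith [hm t])
  set q3 : ℝ → ℝ := fun t => Gc t / (Real.sqrt t + 1) + q t with hq3
  have hq3c : Continuous q3 := by
    rw [hq3]
    refine (hGcc.div (by fun_prop) (fun t => ?_)).add hqc
    have := Real.sqrt_nonneg t
    linarith
  have hqid : ∀ t : ℝ, 1 - Gc t = q t * (1 - t) := by
    intro t
    rw [hq]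
    simp only
    rcases le_total t (1 / 2) with h | h
    · rw [max_eq_left (by linarith)]
      field_simp [show (1 - t) ≠ 0 by linarith]
    · rw [hG1 t h]; simp
  have hq3id : ∀ t : ℝ, 0 ≤ t → 1 - Gc t * Real.sqrt t = q3 t * (1 - t) := by
    intro t ht
    rw [hq3]
    simp only
    have h1 : Real.sqrt t * Real.sqrt t = t := Real.mul_self_sqrt ht
    have h2 : Gc t / (Real.sqrt t + 1) * (1 - t) = Gc t * (1 - Real.sqrt t) := by
      have h3 : (Real.sqrt t + 1) ≠ 0 := by have := Real.sqrt_nonneg t; positivity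
      rw [div_mul_eq_mul_div, div_eq_iff h3]
      linear_combination (Gc t) * h1
    rw [add_mul, h2, ← hqid t]
    ring
  have hqb : ∀ t : ℝ, |q t| ≤ 2 := by
    intro t
    rw [hq]
    simp only
    have h0 := cl_nonneg (1 / 4) (1 / 4) t
    have h1 := cl_le_one (1 / 4) (1 / 4) t
    rw [abs_of_nonneg (div_nonneg (by linarith) (by linarith [hm t])),
      div_le_iff₀ (by linarith [hm t])]
    linarith [hm t]
  have hq3b : ∀ t : ℝ, |q3 t| ≤ 3 := by
    intro t
    rw [hq3]
    simp only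
    have h0 := cl_nonneg (1 / 4) (1 / 4) t
    have h1 := cl_le_one (1 / 4) (1 / 4) t
    have h2 : |Gc t / (Real.sqrt t + 1)| ≤ 1 := by
      have h3 := Real.sqrt_nonneg t
      rw [abs_of_nonneg (div_nonneg h0 (by linarith)), div_le_iff₀ (by linarith)]
      linarith
    calc _ ≤ |Gc t / (Real.sqrt t + 1)| + |q t| := abs_add_le _ _
      _ ≤ 1 + 2 := add_le_add h2 (hqb t)
      _ = 3 := by norm_num
  have e1 : (1 : B) - y = cfc (fun t : ℝ => 1 - t) y := by
    rw [cfc_sub (fun _ : ℝ => (1 : ℝ)) (fun t => t) y, cfc_const_one ℝ y, cfc_id' ℝ y]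
  have e2 : (1 : B) - cfc Gc y = cfc q y * (1 - y) := by
    rw [e1, ← cfc_mul q (fun t : ℝ => 1 - t) y hqc.continuousOn (by fun_prop)]
    have : (fun t : ℝ => q t * (1 - t)) = fun t => 1 - Gc t := funext fun t => (hqid t).symm
    rw [this, cfc_sub (fun _ : ℝ => (1 : ℝ)) Gc y (by fun_prop) hGcc.continuousOn,
      cfc_const_one ℝ y]
  have hGs : Continuous fun t => Gc t * Real.sqrt t := hGcc.mul Real.continuous_sqrt
  have e3 : (1 : B) - cfc (fun t => Gc t * Real.sqrt t) y = cfc q3 y * (1 - y) := by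
    rw [e1, ← cfc_mul q3 (fun t : ℝ => 1 - t) y hq3c.continuousOn (by fun_prop)]
    have : cfc (fun t : ℝ => q3 t * (1 - t)) y = cfc (fun t => 1 - Gc t * Real.sqrt t) y :=
      cfc_congr fun t ht => (hq3id t (hsp t ht)).symm
    rw [this, cfc_sub (fun _ : ℝ => (1 : ℝ)) (fun t => Gc t * Real.sqrt t) y (by fun_prop)
      hGs.continuousOn, cfc_const_one ℝ y]
  have e4 : u * cfc (fun t => Gc t * Real.sqrt t) y = x * cfc Gc y := by
    rw [hG _ hGs (fun t ht => by rw [hG0 t ht, zero_mul])]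
    congr 1
    apply congrArg (fun F => cfc F y)
    funext t
    rcases le_or_gt t 0 with h | h
    · rw [hG0 t (by linarith)]; simp
    · rw [mul_div_assoc, div_self (Real.sqrt_pos.2 h).ne', mul_one]
  have e5 : u * k - x * k = u * (cfc q3 y * ((1 - y) * k)) - x * (cfc q y * ((1 - y) * k)) := by
    have h1 : u * (cfc q3 y * ((1 - y) * k)) = u * k - u * cfc (fun t => Gc t * Real.sqrt t) y * k := by
      rw [← mul_assoc (cfc q3 y), ← e3]
      noncomm_ring
    have h2 : x * (cfc q y * ((1 - y) * k)) = x * k - x * cfc Gc y * k := by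
      rw [← mul_assoc (cfc q y), ← e2]
      noncomm_ring
    rw [h1, h2, e4]
    abel
  have n1 : ‖cfc q3 y‖ ≤ 3 := norm_cfc_le (by norm_num) fun t _ => hq3b t
  have n2 : ‖cfc q y‖ ≤ 2 := norm_cfc_le (by norm_num) fun t _ => hqb t
  rw [e5]
  set N := ‖(1 - y) * k‖ with hN
  have hN0 : 0 ≤ N := norm_nonneg _
  have m1 : ‖u * (cfc q3 y * ((1 - y) * k))‖ ≤ 1 * (3 * N) := by
    refine (norm_mul_le _ _).trans ?_
    refine mul_le_mul hu ((norm_mul_le _ _).trans ?_) (norm_nonneg _) zero_le_one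
    exact mul_le_mul_of_nonneg_right n1 hN0
  have m2 : ‖x * (cfc q y * ((1 - y) * k))‖ ≤ 2 * (2 * N) := by
    refine (norm_mul_le _ _).trans ?_
    refine mul_le_mul hx ((norm_mul_le _ _).trans ?_) (norm_nonneg _) zero_le_two
    exact mul_le_mul_of_nonneg_right n2 hN0
  calc _ ≤ ‖u * (cfc q3 y * ((1 - y) * k))‖ + ‖x * (cfc q y * ((1 - y) * k))‖ := norm_sub_le _ _
    _ ≤ 1 * (3 * N) + 2 * (2 * N) := add_le_add m1 m2
    _ = 7 * N := by ring

/-- the maps of the construction -/
theorem oz_rel {n : ℕ} {φ : Fin (n + 1) → Fin (n + 1) → B} {v : B} (hR : RWS n φ v)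
    (i j : Fin (n + 1)) : (∑ m, φ m m) * φ i j = φ i j * ∑ m, φ m m := by
  rw [Finset.mul_sum]
  simp only [hR.mul, Finset.sum_ite_eq, Finset.mem_univ, if_true]

theorem phi_norm {n : ℕ} {φ : Fin (n + 1) → Fin (n + 1) → B} {v : B} (hR : RWS n φ v)
    (i j : Fin (n + 1)) : ‖φ i j‖ ≤ 1 := by
  have h1 : ‖φ i j‖ * ‖φ i j‖ ≤ 1 := by
    rw [← CStarRing.norm_star_mul_self, hR.st, hR.mul, if_pos rfl]
    calc _ ≤ ‖∑ m, φ m m‖ * ‖φ j j‖ := norm_mul_le _ _
      _ ≤ 1 * 1 := mul_le_mul (pc_norm hR.pc) (pc_norm (hR.pc0 j)) (norm_nonneg _) zero_le_one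
      _ = 1 := one_mul 1
  nlinarith [norm_nonneg (φ i j)]

theorem phi_low {n : ℕ} {φ : Fin (n + 1) → Fin (n + 1) → B} {v : B} (hR : RWS n φ v)
    (i j : Fin (n + 1)) (F : ℝ → ℝ) (hF : Continuous F) (c : ℝ) (hc : 0 ≤ c)
    (hb : ∀ t ∈ Set.Icc (0 : ℝ) 1, F t ^ 2 * t ≤ c) :
    ‖cfc F (∑ m, φ m m) * φ i j‖ ≤ Real.sqrt c := by
  set h := ∑ m, φ m m with hh
  have hsa : IsSelfAdjoint h := hR.pc.1
  have hcF : Commute (cfc F h) (φ j i) := hsa.commute_cfc (oz_rel hR j i) F
  have h1 : ‖cfc F h * φ i j‖ * ‖cfc F h * φ i j‖ ≤ c := by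
    rw [← CStarRing.norm_star_mul_self, star_mul, hR.st, (cfc_predicate F h : IsSelfAdjoint _).star_eq]
    have e : φ j i * cfc F h * (cfc F h * φ i j) = cfc (fun t => F t ^ 2 * t) h * φ j j := by
      have e1 : cfc (fun t => F t ^ 2 * t) h = cfc F h * cfc F h * h := by
        have : (fun t : ℝ => F t ^ 2 * t) = fun t => (F t * F t) * t := by
          funext t; ring
        rw [this, cfc_mul (fun t => F t * F t) (fun t => t) h (by fun_prop) (by fun_prop),
          cfc_mul F F h hF.continuousOn hF.continuousOn, cfc_id' ℝ h]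
      rw [e1, ← hcF.eq, mul_assoc (cfc F h) (φ j i), ← mul_assoc (φ j i), ← hcF.eq,
        mul_assoc (cfc F h) (φ j i), hR.mul, if_pos rfl, ← hh]
      simp only [mul_assoc]
    rw [e]
    have hn : ‖cfc (fun t => F t ^ 2 * t) h‖ ≤ c := norm_cfc_le hc fun t ht => by
      have h2 := hR.pc.2 ht
      rw [Real.norm_eq_abs, abs_of_nonneg (mul_nonneg (sq_nonneg _) h2.1)]
      exact hb t h2
    calc _ ≤ ‖cfc (fun t => F t ^ 2 * t) h‖ * ‖φ j j‖ := norm_mul_le _ _
      _ ≤ c * 1 := mul_le_mul hn (pc_norm (hR.pc0 j)) (norm_nonneg _) hc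
      _ = c := mul_one c
  rw [← Real.sqrt_sq (norm_nonneg (cfc F h * φ i j))]
  apply Real.sqrt_le_sqrt
  rw [pow_two]
  exact h1

theorem uni_norm_le (u : unitary B) : ‖(u : B)‖ ≤ 1 := by
  rcases subsingleton_or_nontrivial B with h | h
  · rw [Subsingleton.elim (u : B) 0, norm_zero]; exact zero_le_one
  · exact (CStarRing.norm_coe_unitary u).le

theorem uni_conj_norm (u w : unitary B) (y : B) : ‖(u : B) * y * star (w : B)‖ ≤ ‖y‖ := by
  have h1 : ‖star (w : B)‖ ≤ 1 := by rw [norm_star]; exact uni_norm_le w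
  calc _ ≤ ‖(u : B) * y‖ * ‖star (w : B)‖ := norm_mul_le _ _
    _ ≤ (‖(u : B)‖ * ‖y‖) * 1 := mul_le_mul (norm_mul_le _ _) h1 (norm_nonneg _) (by positivity)
    _ ≤ 1 * ‖y‖ * 1 := by
      rw [mul_one, mul_one]
      exact mul_le_mul_of_nonneg_right (uni_norm_le u) (norm_nonneg _)
    _ = ‖y‖ := by ring

/-- the core estimate -/
theorem oz_core (hPED : PED B) {n : ℕ} {φ : Fin (n + 1) → Fin (n + 1) → B} {v : B}
    (hR : RWS n φ v) (th : ℝ) (hth : 0 < th) : ∃ K : ℝ, 0 ≤ K ∧
    ∀ (g : Fin (n + 1) → B), (∀ i, PC (g i)) → (∀ i j, i ≠ j → g i * g j = 0) →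
    ∀ (U : Fin (n + 1) → unitary B) (δ : ℝ), 0 ≤ δ →
    (∀ i, ‖(U i : B) * φ 0 0 * star (U i : B) - g i‖ ≤ δ) → K * δ ≤ 1 →
    ∃ u : unitary B, ∀ i j, ‖(u : B) * φ i j * star (u : B) - (U i : B) * φ 0 0 * star (U j : B)‖ ≤
      2 * Real.sqrt (3 * th) + 21 * (K * δ) := by
  classical
  set h := ∑ m, φ m m with hh
  have hsa : IsSelfAdjoint h := hR.pc.1
  set gf : ℝ → ℝ := cl th th with hgf
  set kap : ℝ → ℝ := cl (2 * th) th with hkap
  set G2 : ℝ → ℝ := fun t => gf t / (max t th) ^ 2 with hG2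
  have hmx : ∀ t : ℝ, 0 < max t th := fun t => lt_of_lt_of_le hth (le_max_right _ _)
  have hgc : Continuous gf := cl_cont _ _
  have hkc : Continuous kap := cl_cont _ _
  have hG2c : Continuous G2 := by
    rw [hG2]
    exact hgc.div (by fun_prop) (fun t => (pow_pos (hmx t) 2).ne')
  set G : ℝ → ℝ := fun t => t * G2 t with hG
  have hGc : Continuous G := continuous_id.mul hG2c
  have hGg : ∀ t, t * G t = gf t := by
    intro t
    rw [hG, hG2]
    simp only
    rcases le_total t th with h1 | h1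
    · rw [hgf, cl_zero hth h1]; simp
    · rw [max_eq_left h1]
      have : t ≠ 0 := by linarith
      field_simp
  have hgk : ∀ t, gf t * kap t = kap t := by
    intro t
    rcases le_total t (2 * th) with h1 | h1
    · rw [hkap, cl_zero hth h1, mul_zero]
    · rw [hgf, cl_one hth (by linarith), one_mul]
  set Gh := cfc G h with hGh
  set G2h := cfc G2 h with hG2h
  set gh := cfc gf h with hgh
  set k := cfc kap h with hk
  have a1 : h * G2h = Gh := by
    rw [hG2h, hGh, hG, cfc_mul (fun t => t) G2 h (by fun_prop) hG2c.continuousOn, cfc_id' ℝ h]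
  have a2 : h * Gh = gh := by
    have : gf = fun t => t * G t := funext fun t => (hGg t).symm
    rw [hGh, hgh, this, cfc_mul (fun t => t) G h (by fun_prop) hGc.continuousOn, cfc_id' ℝ h]
  have a3 : gh * k = k := by
    have : kap = fun t => gf t * kap t := funext fun t => (hgk t).symm
    rw [hk]
    conv_rhs => rw [this]
    rw [cfc_mul gf kap h hgc.continuousOn hkc.continuousOn]
  have cm : ∀ (F : ℝ → ℝ) (i j), Commute (cfc F h) (φ i j) := fun F i j =>
    hsa.commute_cfc (oz_rel hR i j) F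
  have cmm : ∀ (F F' : ℝ → ℝ), Commute (cfc F h) (cfc F' h) := fun F F' => cfc_commute_cfc F F' h
  have chF : ∀ F : ℝ → ℝ, Commute h (cfc F h) := fun F =>
    (hsa.commute_cfc (Commute.refl h) F).symm
  have cG : h * Gh = Gh * h := (chF G).eq
  have cGp : ∀ i j, Gh * φ i j = φ i j * Gh := fun i j => (cm G i j).eq
  have ckp : ∀ i j, k * φ i j = φ i j * k := fun i j => (cm kap i j).eq
  have sGh : star Gh = Gh := (cfc_predicate G h : IsSelfAdjoint _).star_eq
  have sk : star k = k := (cfc_predicate kap h : IsSelfAdjoint _).star_eq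
  have s00 : star (φ 0 0) = φ 0 0 := hR.st 0 0
  refine ⟨((n : ℝ) + 1) * ((n : ℝ) + 1) * (2 * ‖G2h‖ ^ 2), by positivity, ?_⟩
  intro g hg horth U δ hδ hU hK
  set K : ℝ := ((n : ℝ) + 1) * ((n : ℝ) + 1) * (2 * ‖G2h‖ ^ 2) * δ with hKdef
  set b : Fin (n + 1) → B := fun i => (U i : B) * φ 0 0 * star (U i : B) with hb
  have hbn : ∀ i, ‖b i‖ ≤ 1 := fun i => (uni_conj_norm _ _ _).trans (phi_norm hR 0 0)
  have hbb : ∀ i j, i ≠ j → ‖b i * b j‖ ≤ 2 * δ := by
    intro i j hij
    have e : b i * b j = (b i - g i) * b j + g i * (b j - g j) := by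
      rw [sub_mul, mul_sub, horth i j hij]; abel
    rw [e]
    calc _ ≤ ‖(b i - g i) * b j‖ + ‖g i * (b j - g j)‖ := norm_add_le _ _
      _ ≤ δ * 1 + 1 * δ := add_le_add
        ((norm_mul_le _ _).trans (mul_le_mul (hU i) (hbn j) (norm_nonneg _) hδ))
        ((norm_mul_le _ _).trans (mul_le_mul (pc_norm (hg i)) (hU j) (norm_nonneg _) zero_le_one))
      _ = 2 * δ := by ring
  set E : Fin (n + 1) → B := fun j => φ 0 j * Gh with hE
  set R : Fin (n + 1) → B := fun j => φ 0 j * G2h with hRd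
  have hER : ∀ j, φ 0 0 * R j = E j := by
    intro j
    rw [hRd, hE]
    simp only
    rw [← mul_assoc, hR.mul, if_pos rfl, ← hh, oz_rel hR, ← hh, mul_assoc, a1]
  have hRn : ∀ j, ‖R j‖ ≤ ‖G2h‖ := by
    intro j
    calc _ ≤ ‖φ 0 j‖ * ‖G2h‖ := norm_mul_le _ _
      _ ≤ 1 * ‖G2h‖ := mul_le_mul_of_nonneg_right (phi_norm hR 0 j) (norm_nonneg _)
      _ = _ := one_mul _
  have hUU : ∀ i, star (U i : B) * (U i : B) = 1 := fun i => Unitary.coe_star_mul_self (U i)
  set T : Fin (n + 1) → Fin (n + 1) → B := fun i j => star ((U i : B) * E i) * ((U j : B) * E j)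
    with hT
  have hTd : ∀ i, T i i = Gh * (h * φ i i) * Gh := by
    intro i
    rw [hT, hE]
    simp only
    rw [star_mul, star_mul, hR.st, sGh]
    calc _ = Gh * (φ i 0 * (star (U i : B) * (U i : B)) * φ 0 i) * Gh := by simp only [mul_assoc]
      _ = _ := by rw [hUU, mul_one, hR.mul, if_pos rfl, ← hh]
  have hTsum : ∑ i, T i i = gh * gh := by
    simp only [hTd]
    rw [← Finset.sum_mul, ← Finset.mul_sum, ← Finset.mul_sum, ← hh]
    calc Gh * (h * h) * Gh = (h * Gh) * (h * Gh) := by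
          rw [← mul_assoc Gh, ← cG]; simp only [mul_assoc]
      _ = _ := by rw [a2]
  have hTo : ∀ i j, i ≠ j → ‖T i j‖ ≤ 2 * ‖G2h‖ ^ 2 * δ := by
    intro i j hij
    have e : T i j = star (R i) * (star (U i : B) * (b i * b j) * star (star (U j : B))) * R j := by
      rw [hT, hb]
      simp only
      rw [← hER, ← hER, star_mul, star_mul, s00, star_star]
      calc _ = star (R i) * φ 0 0 * star (U i : B) * (U j : B) * φ 0 0 * R j := by
            simp only [mul_assoc]
        _ = star (R i) * ((star (U i : B) * (U i : B)) * φ 0 0 * star (U i : B) * (U j : B) *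
            φ 0 0 * (star (U j : B) * (U j : B))) * R j := by
            rw [hUU, hUU, one_mul, mul_one]; simp only [mul_assoc]
        _ = _ := by simp only [mul_assoc]
    rw [e]
    have h2 : ‖star (U i : B) * (b i * b j) * star (star (U j : B))‖ ≤ 2 * δ := by
      have h3 := uni_conj_norm (star (U i)) (star (U j)) (b i * b j)
      exact (le_trans (by exact h3) (hbb i j hij))
    calc _ ≤ ‖star (R i)‖ * ‖star (U i : B) * (b i * b j) * star (star (U j : B))‖ * ‖R j‖ :=
          (norm_mul_le _ _).trans (mul_le_mul_of_nonneg_right (norm_mul_le _ _) (norm_nonneg _))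
      _ ≤ ‖G2h‖ * (2 * δ) * ‖G2h‖ := by
          rw [norm_star]
          have h4 := hRn i
          have h5 := hRn j
          gcongr
      _ = _ := by ring
  set x : B := ∑ j, (U j : B) * E j with hx
  have hxx : star x * x = ∑ i, ∑ j, T i j := by
    rw [hx, star_sum, Finset.sum_mul_sum]
  have hdiff : ‖star x * x - gh * gh‖ ≤ K := by
    have e : star x * x - gh * gh = ∑ i, ∑ j, (if i = j then 0 else T i j) := by
      rw [hxx, ← hTsum, ← Finset.sum_sub_distrib]
      refine Finset.sum_congr rfl fun i _ => ?_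
      rw [sub_eq_iff_eq_add]
      have : T i i = ∑ j, (if i = j then T i j else 0) := by simp
      rw [this, ← Finset.sum_add_distrib]
      refine Finset.sum_congr rfl fun j _ => ?_
      split_ifs <;> simp
    rw [e]
    calc _ ≤ ∑ i : Fin (n + 1), ‖∑ j, (if i = j then 0 else T i j)‖ := norm_sum_le _ _
      _ ≤ ∑ i : Fin (n + 1), ∑ j : Fin (n + 1), ‖(if i = j then 0 else T i j)‖ :=
          Finset.sum_le_sum fun i _ => norm_sum_le _ _
      _ ≤ ∑ i : Fin (n + 1), ∑ j : Fin (n + 1), 2 * ‖G2h‖ ^ 2 * δ := by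
          refine Finset.sum_le_sum fun i _ => Finset.sum_le_sum fun j _ => ?_
          split_ifs with hij
          · rw [norm_zero]; positivity
          · exact hTo i j hij
      _ = K := by
          simp only [Finset.sum_const, Finset.card_univ, Fintype.card_fin, nsmul_eq_mul]
          rw [hKdef]; push_cast; ring
  have hghn : ‖gh‖ ≤ 1 := norm_cfc_le zero_le_one fun t _ => by
    rw [Real.norm_eq_abs, abs_of_nonneg (cl_nonneg _ _ _)]; exact cl_le_one _ _ _
  have hkn : ‖k‖ ≤ 1 := norm_cfc_le zero_le_one fun t _ => by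
    rw [Real.norm_eq_abs, abs_of_nonneg (cl_nonneg _ _ _)]; exact cl_le_one _ _ _
  have hxn : ‖x‖ ≤ 2 := by
    have h1 : ‖x‖ * ‖x‖ ≤ 2 := by
      rw [← CStarRing.norm_star_mul_self]
      have e : star x * x = (star x * x - gh * gh) + gh * gh := by abel
      rw [e]
      calc _ ≤ ‖star x * x - gh * gh‖ + ‖gh * gh‖ := norm_add_le _ _
        _ ≤ 1 + 1 * 1 := add_le_add (hdiff.trans hK)
          ((norm_mul_le _ _).trans (mul_le_mul hghn hghn (norm_nonneg _) zero_le_one))
        _ = 2 := by norm_num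
    nlinarith [norm_nonneg x]
  have hyk : ‖(1 - star x * x) * k‖ ≤ K := by
    have e : (1 - star x * x) * k = - ((star x * x - gh * gh) * k) := by
      have : gh * gh * k = k := by rw [mul_assoc, a3, a3]
      rw [sub_mul, sub_mul, this, one_mul]; abel
    rw [e, norm_neg]
    calc _ ≤ ‖star x * x - gh * gh‖ * ‖k‖ := norm_mul_le _ _
      _ ≤ K * 1 := mul_le_mul hdiff hkn (norm_nonneg _) ((norm_nonneg _).trans hdiff)
      _ = K := mul_one K
  obtain ⟨u, hu⟩ := hPED x (1 / 4) (by norm_num)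
  have hK0 : 0 ≤ K := (norm_nonneg _).trans hdiff
  have huk : ‖(u : B) * k - x * k‖ ≤ 7 * K :=
    (ped_step x k u (uni_norm_le u) hxn hu).trans (mul_le_mul_of_nonneg_left hyk (by norm_num))
  have hxk : ∀ i j, x * k * φ i j = (U i : B) * (φ 0 j * k) := by
    intro i j
    rw [hx, Finset.sum_mul, Finset.sum_mul]
    rw [Finset.sum_eq_single i]
    · rw [hE]
      simp only
      calc (U i : B) * (φ 0 i * Gh) * k * φ i j = (U i : B) * (φ 0 i * (Gh * (k * φ i j))) := by
            simp only [mul_assoc]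
        _ = (U i : B) * (φ 0 i * φ i j * (Gh * k)) := by
            rw [ckp, ← mul_assoc Gh, cGp]; simp only [mul_assoc]
        _ = (U i : B) * (φ 0 j * (h * Gh * k)) := by
            rw [hR.mul, if_pos rfl, ← hh, oz_rel hR, ← hh]; simp only [mul_assoc]
        _ = _ := by rw [a2, a3]
    · intro l _ hl
      rw [hE]
      simp only
      calc (U l : B) * (φ 0 l * Gh) * k * φ i j = (U l : B) * (φ 0 l * (Gh * (k * φ i j))) := by
            simp only [mul_assoc]
        _ = (U l : B) * (φ 0 l * φ i j * (Gh * k)) := by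
            rw [ckp, ← mul_assoc Gh, cGp]; simp only [mul_assoc]
        _ = 0 := by rw [hR.mul, if_neg hl, zero_mul, mul_zero]
    · intro hi
      exact absurd (Finset.mem_univ i) hi
  have hkpk : ∀ i j, ‖φ i j - k * φ i j * k‖ ≤ Real.sqrt (3 * th) := by
    intro i j
    set F : ℝ → ℝ := fun t => 1 - kap t * kap t with hF
    have hFc : Continuous F := continuous_const.sub (hkc.mul hkc)
    have e : φ i j - k * φ i j * k = cfc F h * φ i j := by
      rw [hF, cfc_sub (fun _ : ℝ => (1 : ℝ)) (fun t => kap t * kap t) h (by fun_prop)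
        (hkc.mul hkc).continuousOn, cfc_const_one ℝ h, cfc_mul kap kap h hkc.continuousOn
        hkc.continuousOn, sub_mul, one_mul, ← hk, mul_assoc k (φ i j) k, ← ckp, mul_assoc]
    rw [e]
    refine phi_low hR i j F hFc (3 * th) (by positivity) fun t ht => ?_
    have h0 := cl_nonneg (2 * th) th t
    have h1 := cl_le_one (2 * th) th t
    rw [← hkap] at h0 h1
    rcases le_total t (3 * th) with h2 | h2
    · have h3 : F t ^ 2 ≤ 1 := by
        rw [hF]
        simp only
        have h4 : 0 ≤ 1 - kap t * kap t := by nlinarith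
        have h5 : 1 - kap t * kap t ≤ 1 := by nlinarith
        nlinarith
      nlinarith [ht.1]
    · have h3 : F t = 0 := by
        rw [hF]
        simp only
        rw [hkap, cl_one hth (by linarith)]; norm_num
      rw [h3]
      have : (0 : ℝ) ^ 2 * t = 0 := by ring
      rw [this]; positivity
  refine ⟨u, fun i j => ?_⟩
  have key : x * k * φ i j * k * star x = (U i : B) * (k * φ 0 0 * k) * star (U j : B) := by
    have h1 : k * star x = star (x * k) := by rw [star_mul, sk]
    have h2 : φ 0 j * k * k * star x = star (x * k * φ j 0 * k) := by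
      rw [star_mul, star_mul, star_mul, hR.st, sk]
      rw [← mul_assoc, ← mul_assoc, ckp]
    calc x * k * φ i j * k * star x = (U i : B) * (φ 0 j * k * k * star x) := by
          rw [hxk]; simp only [mul_assoc]
      _ = _ := by
          rw [h2, hxk, star_mul, star_mul, star_mul, s00, sk, mul_assoc k (φ 0 0) k, ← ckp 0 0]
          simp only [mul_assoc]
  have hP := phi_norm hR i j
  have e : (u : B) * φ i j * star (u : B) - (U i : B) * φ 0 0 * star (U j : B) =
      (u : B) * (φ i j - k * φ i j * k) * star (u : B) +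
      ((u : B) * k - x * k) * φ i j * (k * star (u : B)) +
      (x * k) * φ i j * star ((u : B) * k - x * k) -
      (U i : B) * (φ 0 0 - k * φ 0 0 * k) * star (U j : B) := by
    rw [star_sub, star_mul, star_mul, sk]
    have h3 : (x * k) * φ i j * (k * star x) = (U i : B) * (k * φ 0 0 * k) * star (U j : B) := by
      rw [← key]; simp only [mul_assoc]
    have h4 : (x * k) * φ i j * (k * star (u : B) - k * star x) =
        (x * k) * φ i j * (k * star (u : B)) - (U i : B) * (k * φ 0 0 * k) * star (U j : B) := by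
      rw [mul_sub, h3]
    rw [h4]
    simp only [mul_sub, sub_mul, mul_assoc]
    abel
  rw [e]
  have hsu : ‖star (u : B)‖ ≤ 1 := by rw [norm_star]; exact uni_norm_le u
  have n1 : ‖(u : B) * (φ i j - k * φ i j * k) * star (u : B)‖ ≤ Real.sqrt (3 * th) :=
    (uni_conj_norm _ _ _).trans (hkpk i j)
  have n2 : ‖((u : B) * k - x * k) * φ i j * (k * star (u : B))‖ ≤ 7 * K := by
    calc _ ≤ ‖(u : B) * k - x * k‖ * ‖φ i j‖ * (‖k‖ * ‖star (u : B)‖) :=
          (norm_mul_le _ _).trans (mul_le_mul (norm_mul_le _ _) (norm_mul_le _ _) (norm_nonneg _)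
            (by positivity))
      _ ≤ 7 * K * 1 * (1 * 1) := by gcongr
      _ = 7 * K := by ring
  have n3 : ‖(x * k) * φ i j * star ((u : B) * k - x * k)‖ ≤ 14 * K := by
    calc _ ≤ ‖x‖ * ‖k‖ * ‖φ i j‖ * ‖(u : B) * k - x * k‖ := by
          refine (norm_mul_le _ _).trans ?_
          rw [norm_star]
          refine mul_le_mul_of_nonneg_right ?_ (norm_nonneg _)
          exact (norm_mul_le _ _).trans (mul_le_mul_of_nonneg_right (norm_mul_le _ _) (norm_nonneg _))
      _ ≤ 2 * 1 * 1 * (7 * K) := by gcongr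
      _ = 14 * K := by ring
  have n4 : ‖(U i : B) * (φ 0 0 - k * φ 0 0 * k) * star (U j : B)‖ ≤ Real.sqrt (3 * th) :=
    (uni_conj_norm _ _ _).trans (hkpk 0 0)
  calc _ ≤ ‖(u : B) * (φ i j - k * φ i j * k) * star (u : B) +
      ((u : B) * k - x * k) * φ i j * (k * star (u : B)) +
      (x * k) * φ i j * star ((u : B) * k - x * k)‖ +
      ‖(U i : B) * (φ 0 0 - k * φ 0 0 * k) * star (U j : B)‖ := norm_sub_le _ _
    _ ≤ (Real.sqrt (3 * th) + 7 * K + 14 * K) + Real.sqrt (3 * th) := by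
      refine add_le_add ?_ n4
      exact (norm_add_le _ _).trans (add_le_add ((norm_add_le _ _).trans (add_le_add n1 n2)) n3)
    _ = _ := by ring

end alg

/-- order zero maps -/
theorem t_OZ : S_OZ := by
  intro B _ hPED n φ v hR f g hf hg horth ε hε
  set th : ℝ := ε ^ 2 / 300 with hth
  have hth0 : 0 < th := by positivity
  obtain ⟨K, hK0, hK⟩ := oz_core hPED hR th hth0
  refine ⟨min (1 / (2 * (K + 1))) (ε / (200 * (K + 1))), by positivity, fun W w hW hw => ?_⟩
  set δ : ℝ := min (1 / (2 * (K + 1))) (ε / (200 * (K + 1))) with hδ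
  have hK1 : 0 < K + 1 := by linarith
  have hδ0 : 0 < δ := by positivity
  have hd1 : δ * (2 * (K + 1)) ≤ 1 := by
    have := min_le_left (1 / (2 * (K + 1))) (ε / (200 * (K + 1)))
    rw [← hδ, le_div_iff₀ (by positivity)] at this
    exact this
  have hd2 : δ * (200 * (K + 1)) ≤ ε := by
    have := min_le_right (1 / (2 * (K + 1))) (ε / (200 * (K + 1)))
    rw [← hδ, le_div_iff₀ (by positivity)] at this
    exact this
  have hcoe : ∀ i, ((w i * W : unitary B) : B) = (w i : B) * (W : B) := fun i => rfl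
  have hconj : ∀ i j, ((w i * W : unitary B) : B) * φ 0 0 * star ((w j * W : unitary B) : B) =
      (w i : B) * ((W : B) * φ 0 0 * star (W : B)) * star (w j : B) := by
    intro i j
    rw [hcoe, hcoe, star_mul]
    simp only [mul_assoc]
  obtain ⟨u, hu⟩ := hK g hg horth (fun i => w i * W) (2 * δ) (by positivity) (fun i => by
    rw [hconj]
    have e : (w i : B) * ((W : B) * φ 0 0 * star (W : B)) * star (w i : B) - g i =
        (w i : B) * ((W : B) * φ 0 0 * star (W : B) - f) * star (w i : B) +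
        ((w i : B) * f * star (w i : B) - g i) := by
      rw [mul_sub, sub_mul]; abel
    rw [e]
    calc _ ≤ ‖(w i : B) * ((W : B) * φ 0 0 * star (W : B) - f) * star (w i : B)‖ +
        ‖(w i : B) * f * star (w i : B) - g i‖ := norm_add_le _ _
      _ ≤ δ + δ := add_le_add ((uni_conj_norm _ _ _).trans hW.le) (hw i).le
      _ = 2 * δ := by ring) (by nlinarith)
  refine ⟨u, fun i j => ?_⟩
  have h1 := hu i j
  rw [hconj] at h1
  have h2 : Real.sqrt (3 * th) = ε / 10 := by
    rw [hth, show 3 * (ε ^ 2 / 300) = (ε / 10) ^ 2 by ring]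
    exact Real.sqrt_sq (by positivity)
  rw [h2] at h1
  have e : (u : B) * φ i j * star (u : B) - (w i : B) * f * star (w j : B) =
      ((u : B) * φ i j * star (u : B) - (w i : B) * ((W : B) * φ 0 0 * star (W : B)) *
        star (w j : B)) + (w i : B) * ((W : B) * φ 0 0 * star (W : B) - f) * star (w j : B) := by
    rw [mul_sub, sub_mul]; abel
  rw [e]
  calc _ ≤ _ := norm_add_le _ _
    _ ≤ (2 * (ε / 10) + 21 * (K * (2 * δ))) + δ :=
      add_le_add h1 ((uni_conj_norm _ _ _).trans hW.le)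
    _ < ε := by nlinarith

end Pool.Agent.H923R2.FZ.T_OZ
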